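import Mathlib

/-!
# MP_a90892_an : recurrence of the hyperextension on compact sets and on compact convex sets

Full positive answer to Q1.  For every continuous linear operator `f` on a locally convex space,
every `ℓ` and every Furstenberg family `A`, the hyperextension of `f` to the nonempty compact sets
(Vietoris topology) is topologically `(ℓ, A)`-recurrent if and only if its restriction to the
nonempty compact convex sets is.

The heart of the proof is the following dichotomy.  Given nonempty open sets `U₁, …, U_N`, pick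
`uᵢ ∈ Uᵢ` and a small Vietoris neighbourhood `W` of the polytope `conv (u₁, …, u_N)` among the
compact convex sets.  Either every return time of `W` is a return time of every `Uᵢ`, or there are
a point `x` close to some `uᵢ` and a time `m` such that `f^m x` is close to a point of the polytope
in which some other vertex `u_k` has a non-negligible weight; in that case the pair `(Uᵢ, U_k)` can
be replaced by a small neighbourhood of `x`, and the number of open sets goes down by one.
-/

open Set Topology TopologicalSpace Pointwise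

namespace Pool.Agent.Results.MP_a90892_an.HyperRecurrence

universe u v

/-- A Furstenberg family on `ℕ₀`: closed upward and not containing the empty set. -/
structure IsFurstenberg (A : Set (Set ℕ)) : Prop where
  up : ∀ S ∈ A, ∀ T : Set ℕ, S ⊆ T → T ∈ A
  empty : (∅ : Set ℕ) ∉ A

/-- The `ℓ`-return set of `U` under `g`: those `n` for which `⋂_{0 ≤ j ≤ ℓ} g^{-jn} (U)` is
nonempty. -/
def returnSet {Y : Type v} (g : Y → Y) (ℓ : ℕ) (U : Set Y) : Set ℕ :=
  {n | (⋂ j ∈ Finset.range (ℓ + 1), (g^[j * n]) ⁻¹' U).Nonempty}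

/-- Topological `(ℓ, A)`-recurrence. -/
def TopRec {Y : Type v} [TopologicalSpace Y] (g : Y → Y) (ℓ : ℕ) (A : Set (Set ℕ)) : Prop :=
  ∀ U : Set Y, IsOpen U → U.Nonempty → returnSet g ℓ U ∈ A

/-- The hyperextension `K ↦ g(K)` of a continuous map `g : Y → Y` to the space of nonempty compact
subsets of `Y` (with the Vietoris topology of Mathlib). -/
def hyperK {Y : Type v} [TopologicalSpace Y] (g : Y → Y) (hg : Continuous g) :
    NonemptyCompacts Y → NonemptyCompacts Y := fun K => K.map g hg

/-- The space of nonempty compact convex subsets, with the topology induced from the Vietoris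
topology (the instance on subtypes). -/
abbrev CC (X : Type v) [TopologicalSpace X] [AddCommGroup X] [Module ℝ X] : Type v :=
  {K : NonemptyCompacts X // Convex ℝ (K : Set X)}

/-- The restriction of the hyperextension of a continuous linear operator to the nonempty compact
convex sets. -/
def hyperC {𝕜 : Type u} [RCLike 𝕜] {X : Type v} [TopologicalSpace X] [AddCommGroup X]
    [Module 𝕜 X] [Module ℝ X] [IsScalarTower ℝ 𝕜 X] (f : X →L[𝕜] X) : CC X → CC X :=
  fun K => ⟨hyperK f f.continuous K.1, by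
    have h : Convex ℝ ((f.toLinearMap.restrictScalars ℝ) '' (K.1 : Set X)) :=
      K.2.linear_image _
    simpa [hyperK] using h⟩

/-! ### Return sets -/

theorem mem_returnSet {Y : Type v} (g : Y → Y) (ℓ : ℕ) (U : Set Y) (n : ℕ) :
    n ∈ returnSet g ℓ U ↔ ∃ y : Y, ∀ j ≤ ℓ, g^[j * n] y ∈ U := by
  unfold returnSet
  rw [mem_ofPred_eq]
  constructor
  · rintro ⟨y, hy⟩
    refine ⟨y, fun j hj => ?_⟩
    have := mem_iInter₂.1 hy j (Finset.mem_range.2 (by omega))
    exact this
  · rintro ⟨y, hy⟩
    refine ⟨y, mem_iInter₂.2 fun j hj => hy j ?_⟩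
    have := Finset.mem_range.1 hj
    omega

theorem returnSet_mono {Y : Type v} (g : Y → Y) (ℓ : ℕ) {U V : Set Y} (h : U ⊆ V) :
    returnSet g ℓ U ⊆ returnSet g ℓ V := by
  intro n hn
  rw [mem_returnSet] at hn ⊢
  obtain ⟨y, hy⟩ := hn
  exact ⟨y, fun j hj => h (hy j hj)⟩

theorem coe_hyperK_iter {Y : Type v} [TopologicalSpace Y] (g : Y → Y) (hg : Continuous g)
    (m : ℕ) (K : NonemptyCompacts Y) :
    (((hyperK g hg)^[m] K : NonemptyCompacts Y) : Set Y) = g^[m] '' (K : Set Y) := by
  induction m with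
  | zero => simp
  | succ m ih =>
    rw [Function.iterate_succ_apply', hyperK, NonemptyCompacts.coe_map, ih, ← image_comp,
      ← Function.iterate_succ']

theorem coe_hyperC_iter {𝕜 : Type u} [RCLike 𝕜] {X : Type v} [TopologicalSpace X]
    [AddCommGroup X] [Module 𝕜 X] [Module ℝ X] [IsScalarTower ℝ 𝕜 X] (f : X →L[𝕜] X)
    (m : ℕ) (K : CC X) :
    ((((hyperC f)^[m] K : CC X).1 : NonemptyCompacts X) : Set X) = f^[m] '' (K.1 : Set X) := by
  have h : ((hyperC f)^[m] K : CC X).1 = (hyperK f f.continuous)^[m] K.1 := by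
    induction m with
    | zero => rfl
    | succ m ih =>
      rw [Function.iterate_succ_apply', Function.iterate_succ_apply', ← ih]
      rfl
  rw [h, coe_hyperK_iter]

/-! ### Basic open sets of the Vietoris topology -/

/-- Every Vietoris neighbourhood of a compact set contains a basic one. -/
theorem exists_basic {Y : Type v} [TopologicalSpace Y] (W : Set (NonemptyCompacts Y))
    (hW : IsOpen W) (K : NonemptyCompacts Y) (hK : K ∈ W) :
    ∃ u : Set (Set Y), u.Finite ∧ (∀ U ∈ u, IsOpen U) ∧ (K : Set Y) ⊆ ⋃₀ u ∧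
      (∀ U ∈ u, ((K : Set Y) ∩ U).Nonempty) ∧
      ∀ L : NonemptyCompacts Y, (L : Set Y) ⊆ ⋃₀ u → (∀ U ∈ u, ((L : Set Y) ∩ U).Nonempty) →
        L ∈ W := by
  let _ : TopologicalSpace (Set Y) := TopologicalSpace.vietoris Y
  obtain ⟨T, hT, hTW⟩ := (isOpen_induced_iff).1 hW
  have hKT : (K : Set Y) ∈ T := by
    have : K ∈ (fun L : NonemptyCompacts Y => (L : Set Y)) ⁻¹' T := by
      rw [hTW]; exact hK
    exact this
  obtain ⟨B, hB, hKB, hBT⟩ :=
    (vietoris.isTopologicalBasis (α := Y)).exists_subset_of_mem_open hKT hT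
  obtain ⟨u, ⟨hu1, hu2⟩, rfl⟩ := hB
  refine ⟨u, hu1, hu2, hKB.1, hKB.2, fun L hL1 hL2 => ?_⟩
  have : L ∈ (fun L : NonemptyCompacts Y => (L : Set Y)) ⁻¹' T := hBT ⟨hL1, hL2⟩
  rw [hTW] at this
  exact this

/-! ### The compact case -/

/-- For finitely many nonempty open sets of `Y` there is a nonempty open set of compact sets whose
return times are return times of all of them. -/
theorem compact_step {Y : Type v} [TopologicalSpace Y] (g : Y → Y) (hg : Continuous g) (ℓ : ℕ)
    (hY : Nonempty Y) :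
    ∀ (n : ℕ) (ι : Type v) [Fintype ι] (_ : Fintype.card ι = n) (U : ι → Set Y),
      (∀ i, IsOpen (U i)) → (∀ i, (U i).Nonempty) →
      ∃ W : Set (NonemptyCompacts Y), IsOpen W ∧ W.Nonempty ∧
        ∀ i, returnSet (hyperK g hg) ℓ W ⊆ returnSet g ℓ (U i) := by
  classical
  intro n
  induction n with
  | zero =>
    intro ι _ hι U hU hne
    have hemp : IsEmpty ι := Fintype.card_eq_zero_iff.1 hι
    refine ⟨univ, isOpen_univ, ?_, fun i => (hemp.false i).elim⟩
    obtain ⟨y⟩ := hY
    exact ⟨⟨⟨{y}, isCompact_singleton⟩, singleton_nonempty y⟩, mem_univ _⟩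
  | succ n ih =>
    intro ι _ hι U hU hne
    have hιne : Nonempty ι := by
      apply Fintype.card_pos_iff.1
      omega
    choose u hu using hne
    set W : Set (NonemptyCompacts Y) :=
      {K | (K : Set Y) ⊆ ⋃ i, U i} ∩ ⋂ i, {K | ((K : Set Y) ∩ U i).Nonempty} with hWdef
    have hWo : IsOpen W :=
      (NonemptyCompacts.isOpen_subsets_of_isOpen (isOpen_iUnion hU)).inter
        (isOpen_iInter_of_finite fun i =>
          NonemptyCompacts.isOpen_inter_nonempty_of_isOpen (hU i))
    have hWne : W.Nonempty := by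
      refine ⟨⟨⟨range u, (finite_range u).isCompact⟩, range_nonempty u⟩, ?_, ?_⟩
      · rintro y ⟨i, rfl⟩
        exact mem_iUnion.2 ⟨i, hu i⟩
      · rw [mem_iInter]
        intro i
        exact ⟨u i, ⟨i, rfl⟩, hu i⟩
    by_cases hall : ∀ i, returnSet (hyperK g hg) ℓ W ⊆ returnSet g ℓ (U i)
    · exact ⟨W, hWo, hWne, hall⟩
    push Not at hall
    obtain ⟨i₀, hi₀⟩ := hall
    rw [not_subset] at hi₀
    obtain ⟨m, hm, hmn⟩ := hi₀
    rw [mem_returnSet] at hm hmn
    push Not at hmn
    obtain ⟨K, hK⟩ := hm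
    have hK0 := hK 0 (Nat.zero_le _)
    rw [Nat.zero_mul, Function.iterate_zero, id] at hK0
    obtain ⟨x, hxK, hxU⟩ := mem_iInter.1 hK0.2 i₀
    obtain ⟨j, hj, hjU⟩ := hmn x
    have h1 := (hK j hj).1
    rw [mem_ofPred_eq, coe_hyperK_iter] at h1
    obtain ⟨k, hk⟩ := mem_iUnion.1 (h1 ⟨x, hxK, rfl⟩)
    have hki : i₀ ≠ k := by
      rintro rfl
      exact hjU hk
    set U' : {i : ι // i ≠ k} → Set Y :=
      fun i => {y | y ∈ U i.1 ∧ (i.1 = i₀ → g^[j * m] y ∈ U k)} with hU'
    have hU'o : ∀ i, IsOpen (U' i) := by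
      intro i
      by_cases hi : i.1 = i₀
      · have : U' i = U i.1 ∩ (g^[j * m]) ⁻¹' (U k) := by
          ext y
          simp [hU', hi]
        rw [this]
        exact (hU _).inter ((hU k).preimage (hg.iterate _))
      · have : U' i = U i.1 := by
          ext y
          simp [hU', hi]
        rw [this]
        exact hU _
    have hU'ne : ∀ i, (U' i).Nonempty := by
      intro i
      by_cases hi : i.1 = i₀
      · exact ⟨x, by rw [hi]; exact hxU, fun _ => hk⟩
      · exact ⟨u i.1, hu i.1, fun h => (hi h).elim⟩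
    have hcard : Fintype.card {i : ι // i ≠ k} = n := by
      have := Fintype.card_subtype_compl (fun i : ι => i = k)
      rw [Fintype.card_subtype_eq] at this
      have h2 : Fintype.card {i : ι // i ≠ k} = Fintype.card {i : ι // ¬ (i = k)} := rfl
      omega
    obtain ⟨W', hW'o, hW'ne, hW'⟩ := ih {i : ι // i ≠ k} hcard U' hU'o hU'ne
    refine ⟨W', hW'o, hW'ne, fun i => ?_⟩
    by_cases hi : i = k
    · intro r hr
      have h3 := hW' ⟨i₀, hki⟩ hr
      rw [mem_returnSet] at h3 ⊢
      obtain ⟨y, hy⟩ := h3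
      refine ⟨g^[j * m] y, fun a ha => ?_⟩
      have h4 := (hy a ha).2 rfl
      rw [hi, ← Function.iterate_add_apply, add_comm, Function.iterate_add_apply]
      exact h4
    · exact (hW' ⟨i, hi⟩).trans (returnSet_mono g ℓ fun y hy => hy.1)

/-! ### Seminorms -/

section real

variable {X : Type v} [AddCommGroup X] [TopologicalSpace X] [IsTopologicalAddGroup X]
  [Module ℝ X] [ContinuousSMul ℝ X] [LocallyConvexSpace ℝ X]

/-- Every neighbourhood of `0` contains the unit ball of a continuous seminorm. -/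
theorem exists_seminorm (V : Set X) (hV : V ∈ 𝓝 (0 : X)) :
    ∃ q : Seminorm ℝ X, Continuous q ∧ ∀ x, q x < 1 → x ∈ V := by
  obtain ⟨s, hs, hsV⟩ := (nhds_hasBasis_absConvex_open ℝ X).mem_iff.1 hV
  set S : AbsConvexOpenSets ℝ X := ⟨s, hs⟩ with hS
  have hb := gaugeSeminormFamily_ball (𝕜 := ℝ) (E := X) S
  have hw : WithSeminorms (gaugeSeminormFamily ℝ X) := with_gaugeSeminormFamily
  refine ⟨gaugeSeminormFamily ℝ X S, hw.continuous_seminorm S, fun x hx => ?_⟩
  have : x ∈ (gaugeSeminormFamily ℝ X S).ball 0 1 := by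
    rw [Seminorm.mem_ball_zero]
    exact hx
  rw [hb] at this
  exact hsV this

omit [TopologicalSpace X] [IsTopologicalAddGroup X] [ContinuousSMul ℝ X]
  [LocallyConvexSpace ℝ X] in
theorem seminorm_sum_le {ι : Type v} (q : Seminorm ℝ X) (s : Finset ι) (g : ι → X) :
    q (∑ i ∈ s, g i) ≤ ∑ i ∈ s, q (g i) := by
  classical
  induction s using Finset.induction_on with
  | empty => simp
  | insert a s ha ih =>
    rw [Finset.sum_insert ha, Finset.sum_insert ha]
    exact (map_add_le_add q _ _).trans (by linarith)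

omit [ContinuousSMul ℝ X] [LocallyConvexSpace ℝ X] in
theorem iter_eq (f : X →L[ℝ] X) (b : ℕ) (v : X) : f^[b] v = (f ^ b) v := by
  induction b with
  | zero => rfl
  | succ b ih =>
    rw [Function.iterate_succ_apply', ih, pow_succ']
    rfl

/-- The linear reduction: for finitely many nonempty open sets of `X` there is a nonempty open set
of compact convex sets whose return times are return times of all of them. -/
theorem convex_step (f : X →L[ℝ] X) (ℓ : ℕ) :
    ∀ (n : ℕ) (ι : Type v) [Fintype ι] (_ : Fintype.card ι = n) (U : ι → Set X),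
      (∀ i, IsOpen (U i)) → (∀ i, (U i).Nonempty) →
      ∃ W : Set (CC X), IsOpen W ∧ W.Nonempty ∧
        ∀ i, returnSet (hyperC f) ℓ W ⊆ returnSet f ℓ (U i) := by
  classical
  intro n
  induction n with
  | zero =>
    intro ι _ hι U hU hne
    have hemp : IsEmpty ι := Fintype.card_eq_zero_iff.1 hι
    refine ⟨univ, isOpen_univ, ?_, fun i => (hemp.false i).elim⟩
    exact ⟨⟨⟨⟨{0}, isCompact_singleton⟩, singleton_nonempty 0⟩, convex_singleton 0⟩, mem_univ _⟩
  | succ n ih =>
    intro ι _ hι U hU hne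
    have hιne : Nonempty ι := by
      apply Fintype.card_pos_iff.1
      omega
    choose u hu using hne
    -- a seminorm adapted to all `U i`
    obtain ⟨q, hqc, hq⟩ : ∃ q : Seminorm ℝ X, Continuous q ∧
        ∀ i x, q (x - u i) < 1 → x ∈ U i := by
      have hV : (⋂ i, (fun x => x + u i) ⁻¹' (U i)) ∈ 𝓝 (0 : X) := by
        apply IsOpen.mem_nhds
        · exact isOpen_iInter_of_finite fun i => (hU i).preimage (by fun_prop)
        · rw [mem_iInter]
          intro i
          simpa using hu i
      obtain ⟨q, hqc, hq⟩ := exists_seminorm _ hV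
      refine ⟨q, hqc, fun i x hx => ?_⟩
      have := mem_iInter.1 (hq _ hx) i
      simpa using this
    -- constants
    set M : ℝ := ∑ i, ∑ k, q (u k - u i) with hM
    have hM0 : 0 ≤ M := Finset.sum_nonneg fun i _ => Finset.sum_nonneg fun k _ => apply_nonneg q _
    set δ : ℝ := 1 / (4 * (M + 1)) with hδ
    have hδ0 : 0 < δ := by positivity
    have hδ1 : δ ≤ 1 / 4 := by
      rw [hδ, div_le_div_iff₀ (by positivity) (by norm_num)]
      nlinarith
    have hδM : δ * M < 1 / 4 := by
      rw [hδ, one_div, inv_mul_eq_div, div_lt_div_iff₀ (by positivity) (by norm_num)]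
      nlinarith
    set η : ℝ := δ / 4 with hη
    have hη0 : 0 < η := by positivity
    -- the polytope
    set Φ : (ι → ℝ) →ₗ[ℝ] X := Fintype.linearCombination ℝ u with hΦ
    have hΦa : ∀ w, Φ w = ∑ i, w i • u i := fun w => Fintype.linearCombination_apply ℝ u w
    have hΦc : Continuous Φ := by
      have : (fun w => Φ w) = fun w : ι → ℝ => ∑ i, w i • u i := funext hΦa
      change Continuous (fun w => Φ w)
      rw [this]
      fun_prop
    set P : Set X := Φ '' stdSimplex ℝ ι with hP
    have hPc : IsCompact P := (isCompact_stdSimplex (𝕜 := ℝ) ι).image hΦc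
    have hPconv : Convex ℝ P := (convex_stdSimplex ℝ ι).linear_image Φ
    have huP : ∀ i, u i ∈ P := by
      intro i
      refine ⟨Pi.single i 1, single_mem_stdSimplex ℝ i, ?_⟩
      rw [hΦa, Finset.sum_eq_single i]
      · simp
      · intro k _ hk
        simp [hk]
      · simp
    set Pη : Set X := ⋃ p ∈ P, {x | q (x - p) < η} with hPη
    have hball : ∀ p : X, IsOpen {x | q (x - p) < η} := fun p =>
      isOpen_lt (by fun_prop) continuous_const
    have hPηo : IsOpen Pη := isOpen_biUnion fun p _ => hball p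
    set W : Set (CC X) :=
      {K | (K.1 : Set X) ⊆ Pη} ∩ ⋂ i, {K | ((K.1 : Set X) ∩ {x | q (x - u i) < η}).Nonempty}
      with hWdef
    have hWo : IsOpen W :=
      ((NonemptyCompacts.isOpen_subsets_of_isOpen hPηo).preimage continuous_subtype_val).inter
        (isOpen_iInter_of_finite fun i =>
          (NonemptyCompacts.isOpen_inter_nonempty_of_isOpen (hball (u i))).preimage
            continuous_subtype_val)
    have hWne : W.Nonempty := by
      obtain ⟨i₁⟩ := hιne
      refine ⟨⟨⟨⟨P, hPc⟩, ⟨u i₁, huP i₁⟩⟩, hPconv⟩, ?_, ?_⟩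
      · intro y hy
        refine mem_iUnion₂.2 ⟨y, hy, ?_⟩
        simp [hη0]
      · rw [mem_iInter]
        intro i
        refine ⟨u i, huP i, ?_⟩
        simp [hη0]
    by_cases hall : ∀ i, returnSet (hyperC f) ℓ W ⊆ returnSet f ℓ (U i)
    · exact ⟨W, hWo, hWne, hall⟩
    push Not at hall
    obtain ⟨i₀, hi₀⟩ := hall
    rw [not_subset] at hi₀
    obtain ⟨m, hm, hmn⟩ := hi₀
    rw [mem_returnSet] at hm hmn
    push Not at hmn
    obtain ⟨K, hK⟩ := hm
    have hK0 := hK 0 (Nat.zero_le _)
    rw [Nat.zero_mul, Function.iterate_zero, id] at hK0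
    obtain ⟨x, hxK, hxU⟩ := mem_iInter.1 hK0.2 i₀
    rw [mem_ofPred_eq] at hxU
    obtain ⟨j, hj, hjU⟩ := hmn x
    have h1 := (hK j hj).1
    rw [mem_ofPred_eq, coe_hyperC_iter] at h1
    obtain ⟨p, hpP, hpx⟩ := mem_iUnion₂.1 (h1 ⟨x, hxK, rfl⟩)
    rw [mem_ofPred_eq] at hpx
    obtain ⟨s, hs, hsp⟩ := hpP
    rw [hΦa] at hsp
    -- some other weight is not small
    obtain ⟨k, hki, hk⟩ : ∃ k, k ≠ i₀ ∧ δ ≤ s k := by
      by_contra hcon
      push Not at hcon
      apply hjU
      apply hq i₀
      have h2 : p - u i₀ = ∑ k, s k • (u k - u i₀) := by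
        simp_rw [smul_sub, Finset.sum_sub_distrib, ← Finset.sum_smul, hs.2, one_smul, hsp]
      have h3 : q (p - u i₀) ≤ δ * M := by
        rw [h2]
        calc q (∑ k, s k • (u k - u i₀)) ≤ ∑ k, q (s k • (u k - u i₀)) := by
              exact seminorm_sum_le q _ _
          _ ≤ ∑ k, δ * q (u k - u i₀) := by
              apply Finset.sum_le_sum
              intro k _
              rw [map_smul_eq_mul, Real.norm_eq_abs, abs_of_nonneg (hs.1 k)]
              by_cases hki : k = i₀
              · rw [hki, sub_self, map_zero, mul_zero, mul_zero]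
              · exact mul_le_mul_of_nonneg_right (hcon k hki).le (apply_nonneg q _)
          _ = δ * ∑ k, q (u k - u i₀) := by rw [Finset.mul_sum]
          _ ≤ δ * M := by
              apply mul_le_mul_of_nonneg_left _ hδ0.le
              exact Finset.single_le_sum
                (f := fun i => ∑ k, q (u k - u i))
                (fun i _ => Finset.sum_nonneg fun k _ => apply_nonneg q _) (Finset.mem_univ i₀)
      have h4 : q (f^[j * m] x - u i₀) ≤ q (f^[j * m] x - p) + q (p - u i₀) := by
        have := map_add_le_add q (f^[j * m] x - p) (p - u i₀)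
        rwa [sub_add_sub_cancel] at this
      linarith
    have hk0 : 0 < s k := lt_of_lt_of_le hδ0 hk
    have hik : i₀ ≠ k := fun h => hki h.symm
    set U' : {i : ι // i ≠ k} → Set X :=
      fun i => {y | q (y - u i.1) < η ∧ (i.1 = i₀ → q (f^[j * m] y - p) < η)} with hU'
    have hU'o : ∀ i, IsOpen (U' i) := by
      intro i
      have hit : Continuous (f^[j * m]) := f.continuous.iterate _
      by_cases hi : i.1 = i₀
      · have : U' i = {y | q (y - u i.1) < η} ∩ {y | q (f^[j * m] y - p) < η} := by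
          ext y
          simp [hU', hi]
        rw [this]
        exact (hball _).inter (isOpen_lt (by fun_prop) continuous_const)
      · have : U' i = {y | q (y - u i.1) < η} := by
          ext y
          simp [hU', hi]
        rw [this]
        exact hball _
    have hU'ne : ∀ i, (U' i).Nonempty := by
      intro i
      by_cases hi : i.1 = i₀
      · refine ⟨x, ?_, fun _ => hpx⟩
        rw [hi]
        exact hxU
      · refine ⟨u i.1, ?_, fun h => (hi h).elim⟩
        simp [hη0]
    have hcard : Fintype.card {i : ι // i ≠ k} = n := by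
      have := Fintype.card_subtype_compl (fun i : ι => i = k)
      rw [Fintype.card_subtype_eq] at this
      have h2 : Fintype.card {i : ι // i ≠ k} = Fintype.card {i : ι // ¬ (i = k)} := rfl
      omega
    obtain ⟨W', hW'o, hW'ne, hW'⟩ := ih {i : ι // i ≠ k} hcard U' hU'o hU'ne
    refine ⟨W', hW'o, hW'ne, fun i => ?_⟩
    by_cases hi : i = k
    · intro r hr
      rw [mem_returnSet, hi]
      have h3 : ∀ i : {i : ι // i ≠ k}, ∃ y, ∀ a ≤ ℓ, f^[a * r] y ∈ U' i := by
        intro i
        exact (mem_returnSet _ _ _ _).1 (hW' i hr)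
      choose y hy using h3
      -- extend `y` by `0` at `k`
      set z : ι → X := fun i => if h : i ≠ k then y ⟨i, h⟩ else 0 with hz
      have hzi : ∀ (i : ι) (h : i ≠ k), z i = y ⟨i, h⟩ := by
        intro i h
        rw [hz]
        simp [h]
      set t : X := (s k)⁻¹ • (f^[j * m] (z i₀) - ∑ i ∈ Finset.univ.erase k, s i • z i) with ht
      refine ⟨t, fun a ha => ?_⟩
      apply hq k
      have hlin : ∀ (b : ℕ), ∀ v w : X, ∀ c : ℝ, f^[b] (v - w) = f^[b] v - f^[b] w ∧
          f^[b] (c • v) = c • f^[b] v := by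
        intro b v w c
        have hb : ∀ v, f^[b] v = (f ^ b) v := iter_eq f b
        rw [hb, hb, hb, hb, map_sub, map_smul]
        exact ⟨rfl, rfl⟩
      have hsum : ∀ b : ℕ, f^[b] (∑ i ∈ Finset.univ.erase k, s i • z i) =
          ∑ i ∈ Finset.univ.erase k, s i • f^[b] (z i) := by
        intro b
        have hb : ∀ v, f^[b] v = (f ^ b) v := iter_eq f b
        simp_rw [hb, map_sum, map_smul]
      have hpe : p = s k • u k + ∑ i ∈ Finset.univ.erase k, s i • u i := by
        rw [← hsp, ← Finset.add_sum_erase _ _ (Finset.mem_univ k)]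
      have h5 : f^[a * r] t - u k = (s k)⁻¹ • ((f^[j * m] (f^[a * r] (z i₀)) - p) -
          ∑ i ∈ Finset.univ.erase k, s i • (f^[a * r] (z i) - u i)) := by
        rw [ht, (hlin _ _ 0 _).2, (hlin _ _ _ 0).1, hsum, ← Function.iterate_add_apply,
          ← Function.iterate_add_apply, add_comm (a * r)]
        simp only [smul_sub, Finset.sum_sub_distrib]
        rw [hpe, smul_add, smul_smul, inv_mul_cancel₀ hk0.ne', one_smul]
        abel
      have h6 : q (f^[j * m] (f^[a * r] (z i₀)) - p) < η := by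
        rw [hzi i₀ hik]
        exact (hy ⟨i₀, hik⟩ a ha).2 rfl
      have h7 : q (∑ i ∈ Finset.univ.erase k, s i • (f^[a * r] (z i) - u i)) ≤ η := by
        calc q (∑ i ∈ Finset.univ.erase k, s i • (f^[a * r] (z i) - u i))
            ≤ ∑ i ∈ Finset.univ.erase k, q (s i • (f^[a * r] (z i) - u i)) := seminorm_sum_le q _ _
          _ ≤ ∑ i ∈ Finset.univ.erase k, s i * η := by
              apply Finset.sum_le_sum
              intro i hi
              rw [map_smul_eq_mul, Real.norm_eq_abs, abs_of_nonneg (hs.1 i)]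
              apply mul_le_mul_of_nonneg_left _ (hs.1 i)
              have hik' := Finset.ne_of_mem_erase hi
              rw [hzi i hik']
              exact (hy ⟨i, hik'⟩ a ha).1.le
          _ ≤ ∑ i, s i * η := by
              apply Finset.sum_le_sum_of_subset_of_nonneg (Finset.erase_subset _ _)
              intro i _ _
              exact mul_nonneg (hs.1 i) hη0.le
          _ = η := by rw [← Finset.sum_mul, hs.2, one_mul]
      rw [h5, map_smul_eq_mul, Real.norm_eq_abs, abs_of_pos (inv_pos.2 hk0), inv_mul_eq_div,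
        div_lt_one hk0]
      have h8 := map_sub_le_add q (f^[j * m] (f^[a * r] (z i₀)) - p)
        (∑ i ∈ Finset.univ.erase k, s i • (f^[a * r] (z i) - u i))
      linarith
    · refine (hW' ⟨i, hi⟩).trans (returnSet_mono f ℓ fun y hy => ?_)
      apply hq i
      have : q (y - u i) < η := hy.1
      linarith

end real

/-! ### The equivalences -/

/-- The return times of finitely many nonempty open sets. -/
def InterIn {Y : Type v} [TopologicalSpace Y] (g : Y → Y) (ℓ : ℕ) (A : Set (Set ℕ)) : Prop :=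
  ∀ (ι : Type v) [Fintype ι] (U : ι → Set Y), (∀ i, IsOpen (U i)) → (∀ i, (U i).Nonempty) →
    {n : ℕ | ∀ i, n ∈ returnSet g ℓ (U i)} ∈ A

theorem inter_of_hyperK {Y : Type v} [TopologicalSpace Y] (hY : Nonempty Y) (g : Y → Y)
    (hg : Continuous g) (ℓ : ℕ) (A : Set (Set ℕ)) (hA : IsFurstenberg A)
    (h : TopRec (hyperK g hg) ℓ A) : InterIn g ℓ A := by
  intro ι _ U hU hne
  obtain ⟨W, hWo, hWne, hW⟩ := compact_step g hg ℓ hY (Fintype.card ι) ι rfl U hU hne
  exact hA.up _ (h W hWo hWne) _ fun n hn i => hW i hn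

theorem hyperK_of_inter {Y : Type v} [TopologicalSpace Y] (g : Y → Y)
    (hg : Continuous g) (ℓ : ℕ) (A : Set (Set ℕ)) (hA : IsFurstenberg A)
    (h : InterIn g ℓ A) : TopRec (hyperK g hg) ℓ A := by
  classical
  rintro W hWo ⟨K, hK⟩
  obtain ⟨u, huf, huo, hKu, hKh, huW⟩ := exists_basic W hWo K hK
  have : Fintype u := huf.fintype
  have hu := h u (fun U => U.1) (fun U => huo _ U.2) (fun U => (hKh _ U.2).mono inter_subset_right)
  refine hA.up _ hu _ fun n hn => ?_
  rw [mem_returnSet]
  have hn' : ∀ U : u, ∃ y, ∀ j ≤ ℓ, g^[j * n] y ∈ U.1 := fun U => (mem_returnSet _ _ _ _).1 (hn U)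
  choose y hy using hn'
  have hune : Nonempty u := by
    obtain ⟨x, hx⟩ := K.nonempty
    obtain ⟨U, hU, -⟩ := hKu hx
    exact ⟨⟨U, hU⟩⟩
  refine ⟨⟨⟨range y, (finite_range y).isCompact⟩, range_nonempty y⟩, fun j hj => ?_⟩
  apply huW
  · rw [coe_hyperK_iter]
    rintro _ ⟨_, ⟨U, rfl⟩, rfl⟩
    exact ⟨U.1, U.2, hy U j hj⟩
  · intro U hU
    rw [coe_hyperK_iter]
    exact ⟨g^[j * n] (y ⟨U, hU⟩), ⟨_, ⟨⟨U, hU⟩, rfl⟩, rfl⟩, hy ⟨U, hU⟩ j hj⟩

section real

variable {X : Type v} [AddCommGroup X] [TopologicalSpace X] [IsTopologicalAddGroup X]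
  [Module ℝ X] [ContinuousSMul ℝ X] [LocallyConvexSpace ℝ X]

theorem inter_of_hyperC (f : X →L[ℝ] X) (ℓ : ℕ) (A : Set (Set ℕ)) (hA : IsFurstenberg A)
    (h : TopRec (hyperC f) ℓ A) : InterIn f ℓ A := by
  intro ι _ U hU hne
  obtain ⟨W, hWo, hWne, hW⟩ := convex_step f ℓ (Fintype.card ι) ι rfl U hU hne
  exact hA.up _ (h W hWo hWne) _ fun n hn i => hW i hn

theorem hyperC_of_inter (f : X →L[ℝ] X) (ℓ : ℕ) (A : Set (Set ℕ)) (hA : IsFurstenberg A)
    (h : InterIn f ℓ A) : TopRec (hyperC f) ℓ A := by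
  classical
  rintro W hWo ⟨C, hC⟩
  obtain ⟨T, hT, rfl⟩ := isOpen_induced_iff.1 hWo
  obtain ⟨u, huf, huo, hKu, hKh, huW⟩ := exists_basic T hT C.1 hC
  have : Fintype u := huf.fintype
  have hc : ∀ U : u, ∃ c, c ∈ (C.1 : Set X) ∧ c ∈ U.1 := fun U => hKh _ U.2
  choose c hcC hcU using hc
  obtain ⟨V₁, hV₁, hV₁C⟩ := compact_open_separated_add_right C.1.isCompact
    (isOpen_sUnion huo) hKu
  have hV : V₁ ∩ (⋂ U : u, (fun x => c U + x) ⁻¹' U.1) ∈ 𝓝 (0 : X) := by
    apply Filter.inter_mem hV₁
    apply IsOpen.mem_nhds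
    · exact isOpen_iInter_of_finite fun U => (huo _ U.2).preimage (by fun_prop)
    · rw [mem_iInter]
      intro U
      simpa using hcU U
  obtain ⟨q, hqc, hq⟩ := exists_seminorm _ hV
  have hu := h u (fun U => {x | q (x - c U) < 1})
    (fun U => isOpen_lt (by fun_prop) continuous_const) (fun U => ⟨c U, by simp⟩)
  refine hA.up _ hu _ fun n hn => ?_
  rw [mem_returnSet]
  have hn' : ∀ U : u, ∃ y, ∀ j ≤ ℓ, f^[j * n] y ∈ {x | q (x - c U) < 1} :=
    fun U => (mem_returnSet _ _ _ _).1 (hn U)
  choose y hy using hn'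
  have hune : Nonempty u := by
    obtain ⟨x, hx⟩ := C.1.nonempty
    obtain ⟨U, hU, -⟩ := hKu hx
    exact ⟨⟨U, hU⟩⟩
  refine ⟨⟨⟨⟨convexHull ℝ (range y), (finite_range y).isCompact_convexHull ℝ⟩,
    (range_nonempty y).convexHull⟩, convex_convexHull ℝ _⟩, fun j hj => ?_⟩
  apply huW
  · rw [coe_hyperC_iter]
    have h1 : f^[j * n] '' (convexHull ℝ (range y)) ⊆ (C.1 : Set X) + q.ball 0 1 := by
      have h2 : (fun v => f^[j * n] v) = fun v => (f ^ (j * n)).toLinearMap v := by
        funext v
        exact iter_eq f _ v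
      change (fun v => f^[j * n] v) '' _ ⊆ _
      rw [h2]
      change ((f ^ (j * n)).toLinearMap : X → X) '' _ ⊆ _
      rw [LinearMap.image_convexHull]
      apply convexHull_min
      · rintro _ ⟨_, ⟨U, rfl⟩, rfl⟩
        have h3 : (f ^ (j * n)).toLinearMap (y U) = f^[j * n] (y U) := (iter_eq f _ _).symm
        rw [h3]
        refine ⟨c U, hcC U, f^[j * n] (y U) - c U, ?_, by simp⟩
        rw [Seminorm.mem_ball_zero]
        exact hy U j hj
      · exact C.2.add (q.convex_ball 0 1)
    refine h1.trans ?_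
    rintro _ ⟨a, ha, b, hb, rfl⟩
    rw [Seminorm.mem_ball_zero] at hb
    exact hV₁C ⟨a, ha, b, (hq b hb).1, rfl⟩
  · intro U hU
    rw [coe_hyperC_iter]
    refine ⟨f^[j * n] (y ⟨U, hU⟩), ⟨_, subset_convexHull ℝ _ ⟨⟨U, hU⟩, rfl⟩, rfl⟩, ?_⟩
    have h4 := hy ⟨U, hU⟩ j hj
    have h5 := mem_iInter.1 (hq _ h4).2 ⟨U, hU⟩
    simpa using h5

end real

/-- **Full positive answer to Q1 of MP_a90892_an.**  Let `X` be a locally convex topological
vector space over `𝕜 = ℝ` or `ℂ` (neither completeness nor the Hausdorff property is needed) and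
`f` a continuous linear operator on `X`.  For every `ℓ` and every Furstenberg family `A`, the
following are equivalent: the hyperextension of `f` to the nonempty compact subsets is
topologically `(ℓ, A)`-recurrent; its restriction to the nonempty compact convex subsets is
topologically `(ℓ, A)`-recurrent. -/
theorem result (𝕜 : Type u) [RCLike 𝕜] (X : Type v) [AddCommGroup X] [TopologicalSpace X]
    [IsTopologicalAddGroup X] [Module 𝕜 X] [ContinuousSMul 𝕜 X] [Module ℝ X]
    [IsScalarTower ℝ 𝕜 X] [LocallyConvexSpace ℝ X] (f : X →L[𝕜] X) (ℓ : ℕ)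
    (A : Set (Set ℕ)) (hA : IsFurstenberg A) :
    TopRec (hyperK f f.continuous) ℓ A ↔ TopRec (hyperC f) ℓ A := by
  have : ContinuousSMul ℝ X := IsScalarTower.continuousSMul 𝕜
  set F : X →L[ℝ] X := f.restrictScalars ℝ with hF
  have hFC : hyperC f = hyperC F := rfl
  have hFK : hyperK f f.continuous = hyperK F F.continuous := rfl
  rw [hFC, hFK]
  constructor
  · intro h
    exact hyperC_of_inter F ℓ A hA (inter_of_hyperK ⟨0⟩ F F.continuous ℓ A hA h)
  · intro h
    exact hyperK_of_inter F F.continuous ℓ A hA (inter_of_hyperC F ℓ A hA h)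

end Pool.Agent.Results.MP_a90892_an.HyperRecurrence
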